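import Pool.Agent.U80.PT.Fix

/-!
# The root number over the multiquadratic fields of degree at least four is `1` (helper80)
-/

set_option autoImplicit false
set_option linter.all false

open IsDedekindDomain NumberField
open scoped Classical

namespace Pool.Agent.U80.PT

open Pool.Agent.N922.PX (Fixed LocalRootNumbers rootNumber GoodReduction IntegralAt)
open Pool.Agent.N922.PQ (IsPr Ov exists_below one_mem_of)
open Pool.Agent.U80.MQ (Om wt wt_sq sub_C exists_gens rt)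

/-- generated by square roots of rational numbers: Galois -/
theorem gal_of {L : Type} [Field L] [NumberField L] {S : Set L}
    (hrat : ∀ x ∈ S, ∃ c : ℚ, x ^ 2 = algebraMap ℚ L c)
    (hgen : IntermediateField.adjoin ℚ S = ⊤) : IsGalois ℚ L := by
  have hn : Normal ℚ L := by
    refine normal_iff.2 fun x => ⟨Algebra.IsIntegral.isIntegral x, ?_⟩
    have hx : x ∈ IntermediateField.adjoin ℚ S := by
      rw [hgen]; exact IntermediateField.mem_top
    refine IntermediateField.splits_of_mem_adjoin ℚ L (fun y hy => ?_) hx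
    obtain ⟨c, hc⟩ := hrat y hy
    refine ⟨Pool.Agent.U80.MQ.integral_of hc, ?_⟩
    have h1 : minpoly ℚ y ∣ Polynomial.X ^ 2 - Polynomial.C c := by
      refine minpoly.dvd ℚ y ?_
      rw [map_sub, map_pow, Polynomial.aeval_X, Polynomial.aeval_C, hc, sub_self]
    have h2 : (Polynomial.X ^ 2 - Polynomial.C c : Polynomial ℚ).map (algebraMap ℚ L) =
        (Polynomial.X - Polynomial.C y) * (Polynomial.X - Polynomial.C (-y)) := by
      rw [Polynomial.map_sub, Polynomial.map_pow, Polynomial.map_X, Polynomial.map_C, ← hc,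
        Polynomial.C_pow, Polynomial.C_neg]
      ring
    have h3 : ((Polynomial.X ^ 2 - Polynomial.C c : Polynomial ℚ).map (algebraMap ℚ L)).Splits := by
      rw [h2]
      exact (Polynomial.Splits.X_sub_C _).mul (Polynomial.Splits.X_sub_C _)
    exact h3.of_dvd (by
      rw [h2]
      exact mul_ne_zero (Polynomial.X_sub_C_ne_zero _) (Polynomial.X_sub_C_ne_zero _))
      (Polynomial.map_dvd _ h1)
  exact { to_isSeparable := inferInstance, to_normal := hn }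

theorem gal_K {P : Finset ℕ} (K : IntermediateField ℚ ℂ) [NumberField K] (hK : K ≤ Om P) :
    IsGalois ℚ K := by
  obtain ⟨n, S, r, h1, h2, h3, h4, h5⟩ := exists_gens K hK
  refine gal_of (S := Set.range r) ?_ h4
  rintro _ ⟨i, rfl⟩
  exact ⟨((∏ q ∈ S i, q : ℕ) : ℚ), by rw [h3, map_natCast]⟩

theorem prod_gt {P S : Finset ℕ} (hP : ∀ q ∈ P, q.Prime) (hS : S ⊆ P) (h0 : S.Nonempty) :
    Squarefree (∏ q ∈ S, q) ∧ 1 < ∏ q ∈ S, q := by
  constructor
  · refine (Finset.squarefree_prod_of_pairwise_isCoprime ?_ ?_)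
    · intro a ha b hb hab
      exact Nat.coprime_iff_isRelPrime.1 ((Nat.coprime_primes (hP a (hS ha)) (hP b (hS hb))).2 hab)
    · intro a ha
      exact (hP a (hS ha)).squarefree
  · obtain ⟨q, hq⟩ := h0
    exact lt_of_lt_of_le (hP q (hS hq)).one_lt (Nat.le_of_dvd
      (Finset.prod_pos fun x hx => (hP x (hS hx)).pos) (Finset.dvd_prod_of_mem _ hq))

/-- the square root is irrational -/
theorem wt_irr {P S : Finset ℕ} (hP : ∀ q ∈ P, q.Prime) (hS : S ⊆ P) (h0 : S.Nonempty) (c : ℚ) :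
    (c : ℂ) ≠ wt S := by
  intro h
  obtain ⟨h1, h2⟩ := prod_gt hP hS h0
  have h3 : ((c ^ 2 : ℚ) : ℂ) = ((∏ q ∈ S, q : ℕ) : ℂ) := by
    rw [← wt_sq, ← h]
    push_cast
    ring
  have h4 : c ^ 2 = ((∏ q ∈ S, q : ℕ) : ℚ) := by exact_mod_cast h3
  have h5 : IsSquare ((∏ q ∈ S, q : ℕ) : ℚ) := ⟨c, by rw [← h4, sq]⟩
  rw [Rat.isSquare_natCast_iff] at h5
  obtain ⟨k, hk⟩ := h5
  have h6 := Nat.isUnit_iff.1 (h1 k (by rw [hk]))
  rw [h6] at hk
  omega

/-- the symmetric difference -/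
theorem prod_symm (S T : Finset ℕ) : (∏ q ∈ S, q) * (∏ q ∈ T, q) =
    (∏ q ∈ symmDiff S T, q) * (∏ q ∈ S ∩ T, q) ^ 2 := by
  have e1 : ∏ q ∈ S, q = (∏ q ∈ S \ T, q) * ∏ q ∈ S ∩ T, q := by
    rw [← Finset.prod_union (Finset.disjoint_sdiff_inter _ _), Finset.sdiff_union_inter]
  have e2 : ∏ q ∈ T, q = (∏ q ∈ T \ S, q) * ∏ q ∈ S ∩ T, q := by
    rw [Finset.inter_comm, ← Finset.prod_union (Finset.disjoint_sdiff_inter _ _),
      Finset.sdiff_union_inter]
  have e3 : ∏ q ∈ symmDiff S T, q = (∏ q ∈ S \ T, q) * ∏ q ∈ T \ S, q := by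
    rw [symmDiff_def, Finset.sup_eq_union, Finset.prod_union disjoint_sdiff_sdiff]
  rw [e1, e2, e3]
  ring

theorem wt_symm (S T : Finset ℕ) : wt S * wt T = ((∏ q ∈ S ∩ T, q : ℕ) : ℂ) * wt (symmDiff S T) := by
  unfold Pool.Agent.U80.MQ.wt
  have e1 : ∏ q ∈ S, rt q = (∏ q ∈ S \ T, rt q) * ∏ q ∈ S ∩ T, rt q := by
    rw [← Finset.prod_union (Finset.disjoint_sdiff_inter _ _), Finset.sdiff_union_inter]
  have e2 : ∏ q ∈ T, rt q = (∏ q ∈ T \ S, rt q) * ∏ q ∈ S ∩ T, rt q := by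
    rw [Finset.inter_comm, ← Finset.prod_union (Finset.disjoint_sdiff_inter _ _),
      Finset.sdiff_union_inter]
  have e3 : ∏ q ∈ symmDiff S T, rt q = (∏ q ∈ S \ T, rt q) * ∏ q ∈ T \ S, rt q := by
    rw [symmDiff_def, Finset.sup_eq_union, Finset.prod_union disjoint_sdiff_sdiff]
  have e4 : (∏ q ∈ S ∩ T, rt q) * (∏ q ∈ S ∩ T, rt q) = ((∏ q ∈ S ∩ T, q : ℕ) : ℂ) := by
    rw [← sq]
    exact wt_sq (S ∩ T)
  rw [e1, e2, e3, ← e4]
  ring

/-- degree at least four: two different square roots -/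
theorem two_roots {P : Finset ℕ} (hP : ∀ q ∈ P, q.Prime) (K : IntermediateField ℚ ℂ)
    [NumberField K] (hK : K ≤ Om P) (h4 : 4 ≤ Module.finrank ℚ K) :
    ∃ S T : Finset ℕ, S ⊆ P ∧ T ⊆ P ∧ S.Nonempty ∧ T.Nonempty ∧ S ≠ T ∧ wt S ∈ K ∧ wt T ∈ K := by
  by_contra hcon
  push Not at hcon
  have hle : ∃ x : ℂ, (∃ c : ℚ, x ^ 2 = algebraMap ℚ ℂ c) ∧ K ≤ IntermediateField.adjoin ℚ {x} := by
    by_cases h : ∃ S : Finset ℕ, S ⊆ P ∧ S.Nonempty ∧ wt S ∈ K
    · obtain ⟨S, hS, h0, hSK⟩ := h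
      refine ⟨wt S, ⟨((∏ q ∈ S, q : ℕ) : ℚ), by rw [wt_sq, map_natCast]⟩, (sub_C K hK).trans ?_⟩
      rw [IntermediateField.adjoin_le_iff]
      rintro m ⟨hm, T, hT, rfl⟩
      rcases T.eq_empty_or_nonempty with rfl | h1
      · have : wt (∅ : Finset ℕ) = 1 := by
          unfold Pool.Agent.U80.MQ.wt
          rw [Finset.prod_empty]
        rw [this]
        exact one_mem _
      · by_cases h2 : S = T
        · rw [← h2]
          exact IntermediateField.mem_adjoin_simple_self ℚ _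
        · exact absurd hm (hcon S T hS hT h0 h1 h2 hSK)
    · refine ⟨1, ⟨1, by simp⟩, (sub_C K hK).trans ?_⟩
      rw [IntermediateField.adjoin_le_iff]
      rintro m ⟨hm, T, hT, rfl⟩
      rcases T.eq_empty_or_nonempty with rfl | h1
      · have : wt (∅ : Finset ℕ) = 1 := by
          unfold Pool.Agent.U80.MQ.wt
          rw [Finset.prod_empty]
        rw [this]
        exact one_mem _
      · exact absurd ⟨T, hT, h1, hm⟩ h
  obtain ⟨x, ⟨c, hc⟩, hx⟩ := hle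
  have hi : IsIntegral ℚ x := Pool.Agent.U80.MQ.integral_of hc
  have h2 : Module.finrank ℚ (IntermediateField.adjoin ℚ {x}) ≤ 2 := by
    rw [IntermediateField.adjoin.finrank hi]
    have h3 : minpoly ℚ x ∣ Polynomial.X ^ 2 - Polynomial.C c := by
      refine minpoly.dvd ℚ x ?_
      rw [map_sub, map_pow, Polynomial.aeval_X, Polynomial.aeval_C, hc, sub_self]
    have h5 := Polynomial.natDegree_le_of_dvd h3 (Polynomial.X_pow_sub_C_ne_zero (by norm_num) c)
    rwa [Polynomial.natDegree_X_pow_sub_C] at h5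
  haveI : FiniteDimensional ℚ (IntermediateField.adjoin ℚ {x}) :=
    IntermediateField.adjoin.finiteDimensional hi
  have h3 : Module.finrank ℚ K ≤ Module.finrank ℚ (IntermediateField.adjoin ℚ {x}) :=
    IntermediateField.finrank_le_of_le_right hx
  omega

/-- the automorphism that changes the sign of an irrational square root -/
theorem exists_aut {K : IntermediateField ℚ ℂ} [NumberField K] [IsGalois ℚ K] {P S : Finset ℕ}
    (hP : ∀ q ∈ P, q.Prime) (hS : S ⊆ P) (h0 : S.Nonempty) (hK : wt S ∈ K) :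
    ∃ (r : K) (σ : K ≃ₐ[ℚ] K), r ^ 2 = ((∏ q ∈ S, q : ℕ) : K) ∧ σ r = -r := by
  have hr : (⟨wt S, hK⟩ : K) ^ 2 = ((∏ q ∈ S, q : ℕ) : K) := by
    apply Subtype.ext
    push_cast
    rw [wt_sq]
    push_cast
    rfl
  have h1 : ∃ σ : K ≃ₐ[ℚ] K, σ ⟨wt S, hK⟩ ≠ ⟨wt S, hK⟩ := by
    by_contra hcon
    push Not at hcon
    obtain ⟨c, hc⟩ := Pool.Agent.U80.MQ.fixed hcon
    refine wt_irr hP hS h0 c ?_
    have := congrArg (fun x : K => (x : ℂ)) hc
    simpa using this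
  obtain ⟨σ, hσ⟩ := h1
  refine ⟨⟨wt S, hK⟩, σ, hr, ?_⟩
  rcases Pool.Agent.U80.MQ.sgn (σ := σ) (m := (⟨wt S, hK⟩ : K))
    ⟨((∏ q ∈ S, q : ℕ) : ℚ), by rw [hr, map_natCast]⟩ with h | h
  · exact absurd h hσ
  · exact h

theorem prod_mod {S : Finset ℕ} (h : ∀ q ∈ S, q % 8 = 1) : (∏ q ∈ S, q) % 8 = 1 := by
  rw [Finset.prod_nat_mod, Finset.prod_congr rfl h, Finset.prod_const_one]
  norm_num

/-- **no stable primes outside the radicands** -/
theorem no_fixed {P : Finset ℕ} (hP : ∀ q ∈ P, q.Prime ∧ q % 8 = 1) (K : IntermediateField ℚ ℂ)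
    [NumberField K] (hK : K ≤ Om P) (h4 : 4 ≤ Module.finrank ℚ K) (v : HeightOneSpectrum (𝓞 K))
    (hv : ∀ q ∈ P, ¬ Ov (q : ℤ) v) : ¬ Fixed v := by
  haveI := gal_K K hK
  have hP' : ∀ q ∈ P, q.Prime := fun q hq => (hP q hq).1
  obtain ⟨S, T, hS, hT, hS0, hT0, hne, hSK, hTK⟩ := two_roots hP' K hK h4
  obtain ⟨p0, hp0, hpv⟩ := exists_below v
  obtain ⟨p, rfl⟩ : ∃ p : ℕ, p0 = p := ⟨p0.toNat, (Int.toNat_of_nonneg hp0.1.le).symm⟩
  have hp : p.Prime := Nat.prime_iff_prime_int.2 hp0.2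
  have hpd : ∀ U : Finset ℕ, U ⊆ P → ¬ p ∣ ∏ q ∈ U, q := by
    intro U hU h
    obtain ⟨q, hq, h1⟩ := (Nat.Prime.prime hp).exists_mem_finset_dvd h
    have h2 := (Nat.prime_dvd_prime_iff_eq hp (hP' q (hU hq))).1 h1
    exact hv q (hU hq) (h2 ▸ hpv)
  by_cases h2 : p = 2
  · subst h2
    obtain ⟨r, σ, hr, hσ⟩ := exists_aut hP' hS hS0 hSK
    exact not_fixed_two hpv hr (prod_mod fun q hq => (hP q (hS hq)).2) σ hσ
  · haveI : Fact p.Prime := ⟨hp⟩
    have hne0 : ∀ U : Finset ℕ, U ⊆ P → (((∏ q ∈ U, q : ℕ) : ℤ) : ZMod p) ≠ 0 := by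
      intro U hU h
      rw [ZMod.intCast_zmod_eq_zero_iff_dvd] at h
      exact hpd U hU (by exact_mod_cast h)
    have key : ∀ U : Finset ℕ, U ⊆ P → U.Nonempty → wt U ∈ K →
        IsSquare ((∏ q ∈ U, q : ℕ) : ZMod p) → ¬ Fixed v := by
      intro U hU hU0 hUK hsq
      obtain ⟨r, σ, hr, hσ⟩ := exists_aut hP' hU hU0 hUK
      exact not_fixed_odd hp h2 hpv hr (hpd U hU) hsq σ hσ
    by_cases hs1 : IsSquare ((∏ q ∈ S, q : ℕ) : ZMod p)
    · exact key S hS hS0 hSK hs1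
    by_cases hs2 : IsSquare ((∏ q ∈ T, q : ℕ) : ZMod p)
    · exact key T hT hT0 hTK hs2
    have hUP : symmDiff S T ⊆ P := by
      intro x hx
      rcases Finset.mem_symmDiff.1 hx with h | h
      · exact hS h.1
      · exact hT h.1
    have hU0 : (symmDiff S T).Nonempty := by
      rw [Finset.nonempty_iff_ne_empty]
      intro h
      exact hne (symmDiff_eq_bot.1 h)
    have hI0 : ((∏ q ∈ S ∩ T, q : ℕ) : ℂ) ≠ 0 := by
      rw [Nat.cast_ne_zero]
      exact Finset.prod_ne_zero_iff.2 fun q hq => (hP' q (hS (Finset.mem_inter.1 hq).1)).ne_zero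
    have hUK : wt (symmDiff S T) ∈ K := by
      have h5 : wt (symmDiff S T) = ((∏ q ∈ S ∩ T, q : ℕ) : ℂ)⁻¹ * (wt S * wt T) := by
        rw [wt_symm, ← mul_assoc, inv_mul_cancel₀ hI0, one_mul]
      rw [h5]
      exact mul_mem (inv_mem (natCast_mem K _)) (mul_mem hSK hTK)
    refine key _ hUP hU0 hUK ?_
    have l1 : legendreSym p ((∏ q ∈ S, q : ℕ) : ℤ) = -1 := by
      rw [legendreSym.eq_neg_one_iff]
      exact_mod_cast hs1
    have l2 : legendreSym p ((∏ q ∈ T, q : ℕ) : ℤ) = -1 := by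
      rw [legendreSym.eq_neg_one_iff]
      exact_mod_cast hs2
    have l3 : legendreSym p (((∏ q ∈ symmDiff S T, q : ℕ) : ℤ) * ((∏ q ∈ S ∩ T, q : ℕ) : ℤ) ^ 2) =
        1 := by
      have e : ((∏ q ∈ symmDiff S T, q : ℕ) : ℤ) * ((∏ q ∈ S ∩ T, q : ℕ) : ℤ) ^ 2 =
          ((∏ q ∈ S, q : ℕ) : ℤ) * ((∏ q ∈ T, q : ℕ) : ℤ) := by
        exact_mod_cast (prod_symm S T).symm
      rw [e, legendreSym.mul, l1, l2]
      norm_num
    rw [legendreSym.mul, legendreSym.sq_one' (p := p)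
      (hne0 (S ∩ T) (Finset.inter_subset_left.trans hS)), mul_one,
      legendreSym.eq_one_iff p (hne0 _ hUP)] at l3
    exact_mod_cast l3

/-- the curve `y² = x³ + A x² + B x` -/
def E2 (A B : ℤ) (F : Type) [Field F] : WeierstrassCurve F :=
  { a₁ := 0, a₂ := (A : F), a₃ := 0, a₄ := (B : F), a₆ := 0 }

theorem bc_eq {M : Type} [Field M] [NumberField M] (A B : ℤ) :
    (E2 A B ℚ).baseChange M = E2 A B M := by
  apply WeierstrassCurve.ext <;> simp [E2, WeierstrassCurve.baseChange]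

theorem disc_E2 {M : Type} [Field M] (A B : ℤ) :
    (E2 A B M).Δ = ((16 * B ^ 2 * (A ^ 2 - 4 * B) : ℤ) : M) := by
  simp only [E2, WeierstrassCurve.Δ, WeierstrassCurve.b₂, WeierstrassCurve.b₄, WeierstrassCurve.b₆,
    WeierstrassCurve.b₈]
  push_cast
  ring

/-- good reduction outside the discriminant -/
theorem good_of {M : Type} [Field M] [NumberField M] {A B : ℤ} {v : HeightOneSpectrum (𝓞 M)}
    (h : ¬ Ov (16 * B ^ 2 * (A ^ 2 - 4 * B)) v) : GoodReduction v ((E2 A B ℚ).baseChange M) := by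
  rw [bc_eq]
  refine ⟨1, ?_, ?_⟩
  · rw [one_smul]
    have h0 : v.valuation M (0 : M) ≤ 1 := by rw [map_zero]; exact zero_le_one
    exact ⟨h0, val_le' A v, h0, val_le' B v, h0⟩
  · rw [one_smul, disc_E2]
    exact val_one h

/-- **The root number is `1`.** -/
theorem root_one {P : Finset ℕ} (hP : ∀ q ∈ P, q.Prime ∧ q % 8 = 1) (K : IntermediateField ℚ ℂ)
    [NumberField K] (hK : K ≤ Om P) (h4 : 4 ≤ Module.finrank ℚ K) {A B : ℤ}
    (h0 : 16 * B ^ 2 * (A ^ 2 - 4 * B) ≠ 0)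
    (hq : ∀ q ∈ P, ¬ (q : ℤ) ∣ 16 * B ^ 2 * (A ^ 2 - 4 * B)) {w : HeightOneSpectrum (𝓞 K) → ℤ}
    (hw : LocalRootNumbers K (E2 A B ℚ) w) :
    {v | w v ≠ 1}.Finite ∧ rootNumber K w = 1 := by
  haveI := gal_K K hK
  obtain ⟨n, -, -, -, -, -, -, hn⟩ := exists_gens K hK
  have hn2 : 2 ≤ n := by
    by_contra hlt
    have h1 : n ≤ 1 := by omega
    have h2 : 2 ^ n ≤ 2 ^ 1 := Nat.pow_le_pow_right (by norm_num) h1
    omega
  have hfin : {v | w v ≠ 1}.Finite := by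
    refine ((Pool.Agent.N878.PX.t_rd K).2.1 _ h0).subset fun v hv h => hv ?_
    refine hw.good v (good_of fun h1 => ?_)
    rw [← val_lt, h] at h1
    exact lt_irrefl _ h1
  refine ⟨hfin, ?_⟩
  have hprod := Pool.Agent.N385.PX.PR K n hn w hw.sign hfin hw.conj
  have hempty : {v | w v = -1 ∧ Fixed v} = ∅ := by
    rw [Set.eq_empty_iff_forall_notMem]
    rintro v ⟨hv1, hv2⟩
    by_cases h : ∃ q ∈ P, Ov (q : ℤ) v
    · obtain ⟨q, hqP, hov⟩ := h
      have hqp : IsPr (q : ℤ) :=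
        ⟨by exact_mod_cast (hP q hqP).1.pos, Nat.prime_iff_prime_int.1 (hP q hqP).1⟩
      have h1 := hw.good v (good_of fun h2 => hq q hqP ((ov_dvd hqp hov).1 h2))
      rw [hv1] at h1
      norm_num at h1
    · push Not at h
      exact no_fixed hP K hK h4 v h hv2
  have hie := Pool.Agent.N897.PX.ie K n hn hn2
  unfold Pool.Agent.N922.PX.rootNumber
  rw [hprod, hempty, Set.ncard_empty, pow_zero, mul_one]
  exact hie.neg_one_pow

end Pool.Agent.U80.PT
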