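import Mathlib
import Pool.Agent.N385.PX.PR
import Pool.Agent.N897.PX.IE
import Pool.Agent.N878.PX.RD
import Pool.Agent.N922.PX.Ex
import Pool.Agent.N922.PQ.Core
import Pool.Agent.U80.GT.Fin
import Pool.Agent.U80.MQ.Kum2

/-!
# No prime is stable under the Galois group of a multiquadratic field of degree at least four, except for
# the primes over the radicands (helper80)
-/

set_option autoImplicit false
set_option linter.all false

open IsDedekindDomain NumberField
open scoped Classical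

namespace Pool.Agent.U80.PT

open Pool.Agent.N922.PX (Fixed)
open Pool.Agent.N922.PQ (IsPr Ov exists_below one_mem_of)

section loc

variable {M : Type} [Field M] [NumberField M]

theorem val_lt {c : ℤ} {v : HeightOneSpectrum (𝓞 M)} : v.valuation M (c : M) < 1 ↔ Ov c v := by
  have e : (c : M) = algebraMap (𝓞 M) M (c : 𝓞 M) := by rw [map_intCast]
  rw [e]
  exact HeightOneSpectrum.valuation_lt_one_iff_mem (K := M) v (c : 𝓞 M)

theorem val_le' (c : ℤ) (v : HeightOneSpectrum (𝓞 M)) : v.valuation M (c : M) ≤ 1 := by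
  have e : (c : M) = algebraMap (𝓞 M) M (c : 𝓞 M) := by rw [map_intCast]
  rw [e]
  exact v.valuation_le_one _

theorem val_one {c : ℤ} {v : HeightOneSpectrum (𝓞 M)} (h : ¬ Ov c v) :
    v.valuation M (c : M) = 1 :=
  le_antisymm (val_le' c v) (not_lt.1 fun h1 => h (val_lt.1 h1))

theorem ov_dvd {P c : ℤ} {v : HeightOneSpectrum (𝓞 M)} (hP : IsPr P) (hv : Ov P v) :
    Ov c v ↔ P ∣ c := by
  constructor
  · intro h
    by_contra hn
    exact one_mem_of ((hP.2.irreducible.coprime_iff_not_dvd).2 hn) hv h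
  · rintro ⟨k, rfl⟩
    unfold Pool.Agent.N922.PQ.Ov at hv ⊢
    push_cast
    exact Ideal.mul_mem_right _ _ hv

/-- a root of a monic quadratic polynomial with integral coefficients is integral at `v` -/
theorem int_of {x : M} {b c : ℤ} (h : x ^ 2 + b * x + c = 0) (v : HeightOneSpectrum (𝓞 M)) :
    v.valuation M x ≤ 1 := by
  have hi : IsIntegral ℤ x := by
    refine ⟨Polynomial.X ^ 2 + Polynomial.C b * Polynomial.X + Polynomial.C c, ?_, ?_⟩
    · monicity!
    · simp only [Polynomial.eval₂_add, Polynomial.eval₂_mul, Polynomial.eval₂_pow,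
        Polynomial.eval₂_X, Polynomial.eval₂_C]
      simpa using h
  have := v.valuation_le_one (K := M) (⟨x, hi⟩ : 𝓞 M)
  exact this

/-- from a factorization modulo `p` and an automorphism that exchanges the roots -/
theorem not_fixed_of {v : HeightOneSpectrum (𝓞 M)} {y : M} {s t : ℤ}
    (hy : v.valuation M y ≤ 1) (σ : M ≃ₐ[ℚ] M) (hσ : σ y = s - y)
    (hprod : v.valuation M ((y - t) * (y - (s - t))) < 1) (hst : ¬ Ov (s - 2 * t) v) : ¬ Fixed v := by
  intro hf
  have hint : ∀ c : ℤ, v.valuation M (y - c) ≤ 1 := fun c =>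
    (v.valuation M).map_sub_le hy (val_le' c v)
  have key : ∀ t' : ℤ, (t' = t ∨ t' = s - t) → v.valuation M (y - t') < 1 → False := by
    intro t' ht' h1
    have h2 := hf σ (y - t')
    rw [map_sub, hσ, map_intCast] at h2
    have h3 : v.valuation M ((s : M) - y - t') < 1 := h2 ▸ h1
    have h4 : v.valuation M ((y - t') + ((s : M) - y - t')) < 1 :=
      lt_of_le_of_lt ((v.valuation M).map_add _ _) (max_lt h1 h3)
    have e : (y - t') + ((s : M) - y - t') = ((s - 2 * t' : ℤ) : M) := by push_cast; ring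
    rw [e, val_lt] at h4
    rcases ht' with rfl | rfl
    · exact hst h4
    · apply hst
      have e2 : s - 2 * (s - t) = -(s - 2 * t) := by ring
      rw [e2] at h4
      unfold Pool.Agent.N922.PQ.Ov at h4 ⊢
      rw [Int.cast_neg] at h4
      exact neg_mem_iff.1 h4
  rw [map_mul] at hprod
  by_contra _
  rcases lt_or_ge (v.valuation M (y - t)) 1 with h | h
  · exact key t (Or.inl rfl) h
  · have h1 : v.valuation M (y - t) = 1 := le_antisymm (hint t) h
    rw [h1, one_mul] at hprod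
    exact key (s - t) (Or.inr rfl) (by push_cast; exact hprod)

/-- odd `p` -/
theorem not_fixed_odd {v : HeightOneSpectrum (𝓞 M)} {p : ℕ} (hp : p.Prime) (h2 : p ≠ 2)
    (hv : Ov (p : ℤ) v) {d : ℕ} {r : M} (hr : r ^ 2 = (d : M)) (hd : ¬ p ∣ d)
    (hs : IsSquare (d : ZMod p)) (σ : M ≃ₐ[ℚ] M) (hσ : σ r = -r) : ¬ Fixed v := by
  haveI : Fact p.Prime := ⟨hp⟩
  have hP : IsPr (p : ℤ) := ⟨by exact_mod_cast hp.pos, Nat.prime_iff_prime_int.1 hp⟩
  obtain ⟨z, hz⟩ := hs
  obtain ⟨x, rfl⟩ := ZMod.intCast_surjective z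
  have hdiv : (p : ℤ) ∣ (d : ℤ) - x * x := by
    rw [← ZMod.intCast_zmod_eq_zero_iff_dvd]
    push_cast
    rw [hz, sub_self]
  have hpx : ¬ (p : ℤ) ∣ x := by
    intro h
    have h3 : (p : ℤ) ∣ d := by
      have := dvd_add hdiv (h.mul_right x)
      rwa [sub_add_cancel] at this
    exact hd (by exact_mod_cast h3)
  refine not_fixed_of (y := r) (s := 0) (t := x) (int_of (b := 0) (c := -(d : ℤ)) ?_ v) σ ?_ ?_ ?_
  · push_cast
    rw [hr]
    ring
  · rw [hσ]
    push_cast
    ring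
  · have e : (r - x) * (r - ((0 : ℤ) - x)) = (((d : ℤ) - x * x : ℤ) : M) := by
      push_cast
      rw [← hr]
      ring
    rw [e, val_lt]
    exact (ov_dvd hP hv).2 hdiv
  · intro h
    have h3 := (ov_dvd hP hv).1 h
    rw [zero_sub, dvd_neg] at h3
    rcases hP.2.dvd_or_dvd h3 with h4 | h4
    · have h5 : p ∣ 2 := by exact_mod_cast h4
      exact h2 ((Nat.prime_dvd_prime_iff_eq hp Nat.prime_two).1 h5)
    · exact hpx h4

/-- `p = 2` -/
theorem not_fixed_two {v : HeightOneSpectrum (𝓞 M)} (hv : Ov 2 v) {d : ℕ} {r : M}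
    (hr : r ^ 2 = (d : M)) (hd : d % 8 = 1) (σ : M ≃ₐ[ℚ] M) (hσ : σ r = -r) : ¬ Fixed v := by
  have hP : IsPr (2 : ℤ) := ⟨by norm_num, Int.prime_two⟩
  obtain ⟨m, rfl⟩ : ∃ m, d = 8 * m + 1 := ⟨d / 8, by omega⟩
  have h2 : (2 : M) ≠ 0 := two_ne_zero
  refine not_fixed_of (y := (1 + r) / 2) (s := 1) (t := 0)
    (int_of (b := -1) (c := -(2 * m : ℤ)) ?_ v) σ ?_ ?_ ?_
  · push_cast at hr ⊢
    field_simp
    linear_combination hr
  · rw [map_div₀, map_add, map_one, hσ, map_ofNat]
    push_cast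
    field_simp
    ring
  · have e : ((1 + r) / 2 - (0 : ℤ)) * ((1 + r) / 2 - ((1 : ℤ) - (0 : ℤ))) =
        ((2 * m : ℤ) : M) := by
      push_cast at hr ⊢
      field_simp
      linear_combination hr
    rw [e, val_lt]
    exact (ov_dvd hP hv).2 ⟨m, rfl⟩
  · intro h
    have h3 := (ov_dvd hP hv).1 h
    omega

end loc

end Pool.Agent.U80.PT
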